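import Mathlib
import Pool.Agent.W627.LT.Stm

/-!
# Project LT: discriminant and splitting of primes in terms of `d`
-/

set_option autoImplicit false

namespace Pool.Agent.W428.LT.LTF

open NumberField Pool.Agent.H38R2.CG Pool.Agent.W627.LT

lemma chi_odd (D : ℤ) {p : ℕ} (hp : p.Prime) (hp2 : p ≠ 2) : chi D p = jacobiSym D p := by
  have h0 : padicValNat 2 p = 0 := by
    apply padicValNat.eq_zero_of_not_dvd
    intro h
    exact hp2 ((Nat.prime_dvd_prime_iff_eq Nat.prime_two hp).1 h).symm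
  unfold chi
  rw [h0, pow_zero, one_mul, pow_zero, Nat.div_one]

lemma jac_sq_mul (f a p : ℕ) (hf : Nat.Coprime f p) :
    jacobiSym ((f ^ 2 * a : ℕ) : ℤ) p = jacobiSym (a : ℤ) p := by
  rw [Nat.cast_mul, Nat.cast_pow, jacobiSym.mul_left, jacobiSym.sq_one', one_mul]
  rw [Int.gcd_natCast_natCast]
  exact hf

theorem ltf : Pool.Agent.W627.LT.S_F := by
  intro hN K _ _ d hd hsq hfin hx
  obtain ⟨x, hx⟩ := hx
  obtain ⟨a, f, ha, hf, hdf, hasq⟩ := Nat.sq_mul_squarefree_of_pos hd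
  have ha1 : 1 < a := by
    by_contra hcon
    have : a = 1 := by omega
    rw [this, mul_one] at hdf
    exact hsq ⟨f, by rw [← hdf, sq]⟩
  have hfK : (f : K) ≠ 0 := Nat.cast_ne_zero.2 hf.ne'
  have hx0 : ∃ y : K, y ^ 2 = (a : K) := by
    refine ⟨x / f, ?_⟩
    rw [div_pow, hx, ← hdf, Nat.cast_mul, Nat.cast_pow]
    field_simp
  have hdisc := hN K a ha1 hasq hfin hx0
  have had : a ≤ d := by
    rw [← hdf]
    exact Nat.le_mul_of_pos_left a (by positivity)
  have ha4 : a % 4 ≠ 0 := by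
    intro h
    have h4 : 2 * 2 ∣ a := Nat.dvd_of_mod_eq_zero h
    have := hasq 2 h4
    rw [Nat.isUnit_iff] at this
    omega
  by_cases h1 : a % 4 = 1
  · rw [if_pos h1] at hdisc
    refine ⟨a, ⟨ha1, Or.inl ⟨h1, hasq⟩⟩, hdisc, by omega, ?_⟩
    intro p hp hp2 hpd
    have hcop : Nat.Coprime f p := by
      rw [Nat.coprime_comm, hp.coprime_iff_not_dvd]
      intro h
      apply hpd
      rw [← hdf, sq, mul_assoc]
      exact Dvd.dvd.mul_right h _
    rw [chi_odd _ hp hp2, ← hdf, jac_sq_mul f a p hcop]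
  · rw [if_neg h1] at hdisc
    refine ⟨4 * a, ⟨by omega, Or.inr ⟨a, rfl, by omega, hasq⟩⟩, by rw [hdisc]; push_cast; ring,
      by omega, ?_⟩
    intro p hp hp2 hpd
    have hcop : Nat.Coprime f p := by
      rw [Nat.coprime_comm, hp.coprime_iff_not_dvd]
      intro h
      apply hpd
      rw [← hdf, sq, mul_assoc]
      exact Dvd.dvd.mul_right h _
    have hcop2 : Nat.Coprime 2 p := by
      rw [Nat.coprime_comm, hp.coprime_iff_not_dvd]
      intro h
      exact hp2 ((Nat.prime_dvd_prime_iff_eq hp Nat.prime_two).1 h)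
    rw [chi_odd _ hp hp2, ← hdf, jac_sq_mul f a p hcop, show 4 * a = 2 ^ 2 * a by norm_num,
      jac_sq_mul 2 a p hcop2]

end Pool.Agent.W428.LT.LTF
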